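import Mathlib

/-!
# The part of the ripe blocks
-/

set_option autoImplicit false

namespace Pool.Agent.Helper81.NC

/-- B16b': the part of the ripe blocks: `c` is the characteristic, `8 ≤ δ c`, `8 r ≤ δ Q`, `8 d ≤ δ Q ^ 2`. -/
theorem ripe_part (c Q r k T d : ℕ) (δ : ℝ) (hc : 2 ≤ c) (hcQ : c ∣ Q) (hQ : 1 ≤ Q) (hr : 1 ≤ r) (hk : 1 ≤ k)
    (hδ : 0 < δ) (hδc : 8 ≤ δ * c) (hr2 : (8 * r : ℝ) ≤ δ * Q) (hd : (8 * d : ℝ) ≤ δ * Q ^ 2)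
    (hT : (T : ℝ) ≤ (1 - δ) * (k * Q ^ 2)) :
    ((T / ((Q - (r - 1)) * (Q - Q / c) - d) : ℕ) : ℝ) / k ≤ 1 - δ / 2 := by
  have hQ0 : (0 : ℝ) < Q := by exact_mod_cast hQ
  have hk0 : (0 : ℝ) < k := by exact_mod_cast hk
  have hc0 : (0 : ℝ) < c := by exact_mod_cast (by omega : 0 < c)
  -- `δ ≤ 1`
  have hd1 : 0 ≤ 1 - δ := by
    by_contra hneg
    push Not at hneg
    have h1 : (1 - δ) * (k * (Q : ℝ) ^ 2) < 0 := mul_neg_of_neg_of_pos hneg (by positivity)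
    have h2 : (0 : ℝ) ≤ T := Nat.cast_nonneg _
    linarith
  have hu : 1 / (c : ℝ) ≤ δ / 8 := by
    rw [div_le_div_iff₀ hc0 (by norm_num)]
    linarith
  have hrQ : (r : ℝ) ≤ Q := by nlinarith
  have hrQ' : r - 1 ≤ Q := by
    have : r ≤ Q := by exact_mod_cast hrQ
    omega
  have e1 : ((Q - (r - 1) : ℕ) : ℝ) = Q - (r - 1) := by
    rw [Nat.cast_sub hrQ', Nat.cast_sub hr, Nat.cast_one]
  have e2 : ((Q - Q / c : ℕ) : ℝ) = Q * (1 - 1 / c) := by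
    rw [Nat.cast_sub (Nat.div_le_self Q c), Nat.cast_div hcQ hc0.ne']
    field_simp
  have h1 : (Q : ℝ) * (1 - δ / 8) ≤ ((Q - (r - 1) : ℕ) : ℝ) := by
    rw [e1]
    nlinarith
  have h2 : (Q : ℝ) * (1 - δ / 8) ≤ ((Q - Q / c : ℕ) : ℝ) := by
    rw [e2]
    exact mul_le_mul_of_nonneg_left (by linarith) hQ0.le
  have h3 : 0 ≤ (Q : ℝ) * (1 - δ / 8) := mul_nonneg hQ0.le (by linarith)
  have h4 : (Q : ℝ) * (1 - δ / 8) * (Q * (1 - δ / 8)) ≤ (((Q - (r - 1)) * (Q - Q / c) : ℕ) : ℝ) := by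
    rw [Nat.cast_mul]
    exact mul_le_mul h1 h2 h3 (Nat.cast_nonneg _)
  have h5 : (Q : ℝ) ^ 2 * (1 - 3 * δ / 8) ≤ (((Q - (r - 1)) * (Q - Q / c) - d : ℕ) : ℝ) := by
    have h6 : (((Q - (r - 1)) * (Q - Q / c) : ℕ) : ℝ) ≤ (((Q - (r - 1)) * (Q - Q / c) - d : ℕ) : ℝ) + d := by
      exact_mod_cast (le_tsub_add : (Q - (r - 1)) * (Q - Q / c) ≤ (Q - (r - 1)) * (Q - Q / c) - d + d)
    have h7 : (0 : ℝ) ≤ (Q : ℝ) ^ 2 * (δ ^ 2 / 64) := by positivity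
    nlinarith
  have h8 : 0 < (Q : ℝ) ^ 2 * (1 - 3 * δ / 8) := mul_pos (by positivity) (by linarith)
  have h9 : ((T / ((Q - (r - 1)) * (Q - Q / c) - d) : ℕ) : ℝ) ≤
      (1 - δ) * (k * Q ^ 2) / ((Q : ℝ) ^ 2 * (1 - 3 * δ / 8)) :=
    Nat.cast_div_le.trans (div_le_div₀ (by positivity) hT h8 h5)
  rw [div_le_iff₀ hk0]
  refine h9.trans ?_
  rw [div_le_iff₀ h8]
  have h10 : 1 - δ ≤ (1 - δ / 2) * (1 - 3 * δ / 8) := by nlinarith [sq_nonneg δ]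
  calc (1 - δ) * (k * (Q : ℝ) ^ 2) ≤ ((1 - δ / 2) * (1 - 3 * δ / 8)) * (k * Q ^ 2) :=
        mul_le_mul_of_nonneg_right h10 (by positivity)
    _ = (1 - δ / 2) * k * ((Q : ℝ) ^ 2 * (1 - 3 * δ / 8)) := by ring

end Pool.Agent.Helper81.NC
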